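import Pool.Agent.Lib.MP_a78e1f_lc.H35.General
import Pool.Agent.Lib.MP_a78e1f_lc.H35.Bart

/-!
# The universality axiom fails below the continuum when the null ideal has small cofinality
-/

open Cardinal MeasureTheory Set
open scoped unitInterval
open Pool.Agent.Lib.MP_a78e1f_lc.H35

namespace Pool.Agent.Results.MP_a78e1f_lc.CofNull

/-- If the ideal of Lebesgue null subsets of the real line has a cofinal family of at most `κ`
sets, and `κ` is smaller than the continuum, then `U_κ(X)` fails for every nonempty perfect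
Polish space `X`. -/
theorem result (κ : Cardinal.{0}) (hκ : κ < 𝔠)
    (N : Set (Set ℝ)) (hNκ : #N ≤ κ) (hN : ∀ s ∈ N, (volume : Measure ℝ) s = 0)
    (hcof : ∀ t : Set ℝ, (volume : Measure ℝ) t = 0 → ∃ s ∈ N, t ⊆ s)
    (X : Type) [TopologicalSpace X] [PolishSpace X] [PerfectSpace X] [Nonempty X] :
    ¬ UAx κ X := by
  have hκ0 : ℵ₀ ≤ κ := by
    refine le_trans ?_ hNκ
    by_contra hlt
    rw [not_le] at hlt
    have hfin : N.Finite := Cardinal.lt_aleph0_iff_set_finite.1 hlt
    have hnull : (volume : Measure ℝ) (⋃ s ∈ N, s) = 0 :=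
      (measure_biUnion_null_iff hfin.countable).2 hN
    have hne : (⋃ s ∈ N, s) ≠ (univ : Set ℝ) := by
      intro h
      rw [h] at hnull
      simp at hnull
    obtain ⟨x, hx⟩ := (Set.ne_univ_iff_exists_notMem _).1 hne
    obtain ⟨s, hs, hxs⟩ := hcof {x} (by simp)
    exact hx (Set.mem_biUnion hs (hxs rfl))
  -- restrict to the unit interval
  obtain ⟨S, w, hS, hcap⟩ := slalom_unit (ι := N) (fun s => (Subtype.val ⁻¹' (s : Set ℝ) : Set I))
    (fun s => by
      rw [unitInterval.volume_apply]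
      exact measure_mono_null (Set.image_preimage_subset _ _) (hN _ s.2))
    (fun t ht => by
      rw [unitInterval.volume_apply] at ht
      obtain ⟨s, hs, hts⟩ := hcof _ ht
      exact ⟨⟨s, hs⟩, Set.image_subset_iff.1 hts⟩)
  refine not_UAx S w hS hcap κ hκ0 ?_ hκ X
  simp only [Cardinal.mk_prod, Cardinal.lift_id, Cardinal.mk_nat]
  have h1 : #(List ℕ) ≤ ℵ₀ := Cardinal.mk_le_aleph0
  calc #N * (ℵ₀ * #(List ℕ)) ≤ κ * (ℵ₀ * ℵ₀) := mul_le_mul' hNκ (mul_le_mul' le_rfl h1)
    _ = κ * ℵ₀ := by rw [Cardinal.aleph0_mul_aleph0]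
    _ = κ := Cardinal.mul_aleph0_eq hκ0

end Pool.Agent.Results.MP_a78e1f_lc.CofNull
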