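import Pool.Agent.Lib.MP_a78e1f_lc.All3

/-!
# The axiom `U_{ℵ₁}` fails in the Sacks, Miller and Laver models

* `IsSac`, `IsMil`, `IsLav` (families of trees), `TX`, `TQ`, `tC`, `tE` (names of trees, and the
  two-step iteration): `Pool/Agent/Lib/MP_a78e1f_lc/T/Base.lean` (`IsMil`: library of MP_6d445e_gt).
* `CSI` (countable support iterations): `Pool/Agent/Lib/MP_a78e1f_lc/U/Iface.lean`.
* `UAX` (the axiom `U_{ℵ₁}` for the Cantor space): `Pool/Agent/Lib/MP_a78e1f_lc/U/Defs.lean`; `ZFC`: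
  `Pool/Agent/Lib/MP_c5d73d_lc/F/Defs.lean`.  They are written for an arbitrary collection with
  `B`-valued membership and equality relations (`Str B U`).
* `VB B`: the Boolean-valued universe `V^B`, `Pool/Agent/Lib/MP_100a6c_lc/Defs.lean`.
-/

universe u

open Cardinal

namespace Pool.Agent.Results.MP_a78e1f_lc.SacksMillerLaver

open Pool.Agent.Lib.MP_100a6c_lc (VB)
open Pool.Agent.Lib.MP_c5d73d_lc.F (ZFC)
open Pool.Agent.Lib.MP_6d445e_gt (IsMil)
open Pool.Agent.Lib.MP_a78e1f_lc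

/-- **Theorem.** Let `𝒯` be Sacks, Miller or Laver forcing.  Suppose that the continuum hypothesis
holds and `κ = ℵ₂` (the case of the Sacks, Miller and Laver models), or that `κ` is any regular
uncountable cardinal with `c ^ ℵ₀ < κ` for all `c < κ`.  Then countable support iterations of `𝒯` of
length `κ` exist; and if `B` is the complete Boolean algebra of any such iteration, then `B` is
nontrivial, all axioms of ZFC have Boolean value `⊤` in `V^B`, and `U_{ℵ₁}` has Boolean value `⊥`: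
the iteration forces that `U_{ℵ₁}` fails. -/
theorem result (κ : Cardinal.{u})
    (hκ : ((2 : Cardinal.{u}) ^ ℵ₀ = ℵ₁ ∧ κ = ℵ_ 2) ∨
      (κ.IsRegular ∧ ℵ₀ < κ ∧ ∀ c < κ, c ^ ℵ₀ < κ))
    (𝒯 : Set (List ℕ) → Prop) (h𝒯 : 𝒯 = IsSac ∨ 𝒯 = IsMil ∨ 𝒯 = IsLav) :
    (∃ (A : κ.ord.ToType → Type u) (_ : ∀ i, CompleteBooleanAlgebra (A i))
      (f : ∀ i j, A i → A j) (B : Type u) (_ : CompleteBooleanAlgebra B) (e : ∀ i, A i → B),
        CSI 𝒯 A f B e) ∧
    ∀ (A : κ.ord.ToType → Type u) [∀ i, CompleteBooleanAlgebra (A i)] (f : ∀ i j, A i → A j)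
      (B : Type u) [CompleteBooleanAlgebra B] (e : ∀ i, A i → B), CSI 𝒯 A f B e →
        (⊥ : B) ≠ ⊤ ∧ ZFC (VB B) = ⊤ ∧ UAX (VB B) = ⊥ :=
  All.main κ hκ 𝒯 h𝒯

end Pool.Agent.Results.MP_a78e1f_lc.SacksMillerLaver
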